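import Pool.Agent.HC.Abh
import Pool.Agent.Helper16.FF6

set_option autoImplicit false
set_option linter.style.haveILetI false
set_option linter.unusedSectionVars false

/-!
Project KL (MP_0b9e0b_ag), KL-13: restriction of a place to a subfield, the valuation ring of a
place is a discrete valuation ring.
-/

namespace Pool.Agent.Helper73.KL

open Pool.Agent.Helper16

section Restr

variable {K L M : Type} [Field K] [Field L] [Field M] [Algebra K L] [Algebra K M] [Algebra L M]
  [IsScalarTower K L M]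

theorem val_eq_exp (v : Place K M) {a : M} (ha : a ≠ 0) : v.val a = WithZero.exp (-v.ord a) := by
  unfold Place.ord
  rw [neg_neg, WithZero.exp_log]
  simpa using ha

theorem val_le_iff (v : Place K M) {a b : M} (ha : a ≠ 0) (hb : b ≠ 0) :
    v.val a ≤ v.val b ↔ v.ord b ≤ v.ord a := by
  rw [val_eq_exp v ha, val_eq_exp v hb, WithZero.exp_le_exp]
  omega

theorem ord_add_le (v : Place K M) {a b : M} (ha : a ≠ 0) (hb : b ≠ 0) (hab : a + b ≠ 0) :
    min (v.ord a) (v.ord b) ≤ v.ord (a + b) := by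
  rcases le_total (v.val a) (v.val b) with h | h
  · have h1 : v.val (a + b) ≤ v.val b := (v.val.map_add a b).trans (max_le h le_rfl)
    rw [val_le_iff v hab hb] at h1
    exact (min_le_right _ _).trans h1
  · have h1 : v.val (a + b) ≤ v.val a := (v.val.map_add a b).trans (max_le le_rfl h)
    rw [val_le_iff v hab ha] at h1
    exact (min_le_left _ _).trans h1

/-- A place is determined by its order function. -/
theorem place_ext {v w : Place K M} (h : ∀ a, v.ord a = w.ord a) : v = w := by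
  apply Place.ext_val
  ext a
  by_cases ha : a = 0
  · rw [ha, map_zero, map_zero]
  · rw [val_eq_exp v ha, val_eq_exp w ha, h]

/-- The place with a given order function. -/
noncomputable def mkPlace (o : L → ℤ) (h0 : ∀ a : K, o (algebraMap K L a) = 0)
    (hmul : ∀ a b : L, a ≠ 0 → b ≠ 0 → o (a * b) = o a + o b)
    (hadd : ∀ a b : L, a ≠ 0 → b ≠ 0 → a + b ≠ 0 → min (o a) (o b) ≤ o (a + b))
    (hs : ∃ a : L, a ≠ 0 ∧ o a = 1) : Place K L where
  val := by
    classical
    exact
    { toFun := fun a => if a = 0 then 0 else WithZero.exp (-o a)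
      map_zero' := if_pos rfl
      map_one' := by
        have h1 := h0 1
        rw [map_one] at h1
        rw [if_neg one_ne_zero, h1, neg_zero, WithZero.exp_zero]
      map_mul' := fun a b => by
        by_cases ha : a = 0
        · simp [ha]
        by_cases hb : b = 0
        · simp [hb]
        rw [if_neg (mul_ne_zero ha hb), if_neg ha, if_neg hb, hmul a b ha hb, ← WithZero.exp_add]
        congr 1
        ring
      map_add_le_max' := fun a b => by
        by_cases ha : a = 0
        · simp [ha]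
        by_cases hb : b = 0
        · simp [hb]
        by_cases hab : a + b = 0
        · simp [hab]
        rw [if_neg hab, if_neg ha, if_neg hb, le_max_iff, WithZero.exp_le_exp, WithZero.exp_le_exp]
        have := hadd a b ha hb hab
        omega }
  surj := by
    classical
    intro c
    obtain ⟨π, hπ0, hπ⟩ := hs
    have hinv : o π⁻¹ = -1 := by
      have h1 := hmul π π⁻¹ hπ0 (inv_ne_zero hπ0)
      rw [mul_inv_cancel₀ hπ0, hπ] at h1
      have h2 := h0 1
      rw [map_one] at h2
      omega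
    have hpow : ∀ (x : L), x ≠ 0 → ∀ n : ℕ, o (x ^ n) = n * o x := by
      intro x hx n
      induction n with
      | zero =>
        have h2 := h0 1
        rw [map_one] at h2
        simp [h2]
      | succ n ih =>
        rw [pow_succ, hmul _ _ (pow_ne_zero _ hx) hx, ih]
        push_cast
        ring
    by_cases hc : c = 0
    · exact ⟨0, by rw [hc]; exact if_pos rfl⟩
    · have key : ∀ m : ℤ, ∃ a : L, a ≠ 0 ∧ o a = m := by
        intro m
        rcases Int.eq_nat_or_neg m with ⟨n, rfl | rfl⟩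
        · exact ⟨π ^ n, pow_ne_zero _ hπ0, by rw [hpow π hπ0, hπ, mul_one]⟩
        · exact ⟨π⁻¹ ^ n, pow_ne_zero _ (inv_ne_zero hπ0), by
            rw [hpow _ (inv_ne_zero hπ0), hinv]; ring⟩
      obtain ⟨a, ha0, ha⟩ := key (-WithZero.log c)
      refine ⟨a, ?_⟩
      change (if a = 0 then 0 else WithZero.exp (-o a)) = c
      rw [if_neg ha0, ha, neg_neg, WithZero.exp_log hc]
  triv := by
    classical
    intro a ha
    change (if algebraMap K L a = 0 then 0 else WithZero.exp (-o (algebraMap K L a))) = 1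
    rw [if_neg ((map_ne_zero _).2 ha), h0, neg_zero, WithZero.exp_zero]

theorem mkPlace_ord (o : L → ℤ) (h0 : ∀ a : K, o (algebraMap K L a) = 0)
    (hmul : ∀ a b : L, a ≠ 0 → b ≠ 0 → o (a * b) = o a + o b)
    (hadd : ∀ a b : L, a ≠ 0 → b ≠ 0 → a + b ≠ 0 → min (o a) (o b) ≤ o (a + b))
    (hs : ∃ a : L, a ≠ 0 ∧ o a = 1) {a : L} (ha : a ≠ 0) :
    (mkPlace (K := K) o h0 hmul hadd hs).ord a = o a := by
  classical
  unfold Place.ord
  have h1 : (mkPlace (K := K) o h0 hmul hadd hs).val a = WithZero.exp (-o a) := if_neg ha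
  rw [h1, WithZero.log_exp, neg_neg]

/-- The restriction of a place to a subfield on which it is not trivial. -/
theorem exists_restrict (v : Place K M) (h : ∃ a : L, v.ord (algebraMap L M a) ≠ 0) :
    ∃ (w : Place K L) (e : ℕ), 0 < e ∧ ∀ a : L, v.ord (algebraMap L M a) = e * w.ord a := by
  have hinj : ∀ {a : L}, a ≠ 0 → algebraMap L M a ≠ 0 := fun ha => (map_ne_zero _).2 ha
  let H : AddSubgroup ℤ :=
    { carrier := {m | ∃ a : L, a ≠ 0 ∧ v.ord (algebraMap L M a) = m}
      zero_mem' := ⟨1, one_ne_zero, by rw [map_one, v.ord_one]⟩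
      add_mem' := by
        rintro _ _ ⟨a, ha, rfl⟩ ⟨b, hb, rfl⟩
        exact ⟨a * b, mul_ne_zero ha hb, by rw [map_mul, v.ord_mul (hinj ha) (hinj hb)]⟩
      neg_mem' := by
        rintro _ ⟨a, ha, rfl⟩
        exact ⟨a⁻¹, inv_ne_zero ha, by rw [map_inv₀, v.ord_inv]⟩ }
  obtain ⟨g, hg⟩ := Int.subgroup_cyclic H
  have hg' : ∀ m : ℤ, m ∈ H ↔ g ∣ m := by
    intro m
    rw [hg, AddSubgroup.mem_closure_singleton]
    constructor
    · rintro ⟨n, rfl⟩
      exact ⟨n, by rw [smul_eq_mul, mul_comm]⟩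
    · rintro ⟨n, rfl⟩
      exact ⟨n, by rw [smul_eq_mul, mul_comm]⟩
  obtain ⟨a0, ha0⟩ := h
  have ha00 : a0 ≠ 0 := by
    rintro rfl
    rw [map_zero, v.ord_zero] at ha0
    exact ha0 rfl
  have hdvd : ∀ a : L, (g.natAbs : ℤ) ∣ v.ord (algebraMap L M a) := by
    intro a
    by_cases ha : a = 0
    · rw [ha, map_zero, v.ord_zero]
      exact dvd_zero _
    · rw [Int.natAbs_dvd, ← hg']
      exact ⟨a, ha, rfl⟩
  have hpos : 0 < g.natAbs := by
    rcases Nat.eq_zero_or_pos g.natAbs with h1 | h1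
    · have h2 := hdvd a0
      rw [h1] at h2
      exact absurd (zero_dvd_iff.1 h2) ha0
    · exact h1
  have hpos' : (0 : ℤ) < g.natAbs := by exact_mod_cast hpos
  have hdiv : ∀ a : L, v.ord (algebraMap L M a) =
      g.natAbs * (v.ord (algebraMap L M a) / g.natAbs) := fun a =>
    (Int.mul_ediv_cancel' (hdvd a)).symm
  let o : L → ℤ := fun a => v.ord (algebraMap L M a) / g.natAbs
  have ho : ∀ a, v.ord (algebraMap L M a) = g.natAbs * o a := hdiv
  have h0 : ∀ a : K, o (algebraMap K L a) = 0 := by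
    intro a
    have h1 := ho (algebraMap K L a)
    rw [← IsScalarTower.algebraMap_apply, v.ord_algebraMap] at h1
    rcases mul_eq_zero.1 h1.symm with h2 | h2
    · omega
    · exact h2
  have hmul : ∀ a b : L, a ≠ 0 → b ≠ 0 → o (a * b) = o a + o b := by
    intro a b ha hb
    have h1 := ho (a * b)
    rw [map_mul, v.ord_mul (hinj ha) (hinj hb), ho, ho, ← mul_add] at h1
    exact (mul_left_cancel₀ hpos'.ne' h1).symm
  have hadd : ∀ a b : L, a ≠ 0 → b ≠ 0 → a + b ≠ 0 → min (o a) (o b) ≤ o (a + b) := by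
    intro a b ha hb hab
    have h1 := ord_add_le v (hinj ha) (hinj hb) (by rw [← map_add]; exact hinj hab)
    rw [← map_add, ho, ho, ho, ← mul_min_of_nonneg _ _ hpos'.le] at h1
    exact le_of_mul_le_mul_left h1 hpos'
  have hs : ∃ a : L, a ≠ 0 ∧ o a = 1 := by
    obtain ⟨a, ha, ha'⟩ := (hg' g.natAbs).2 (Int.dvd_natAbs.2 dvd_rfl)
    refine ⟨a, ha, ?_⟩
    rw [ho] at ha'
    have h2 : (g.natAbs : ℤ) * o a = g.natAbs * 1 := by rw [ha', mul_one]
    exact mul_left_cancel₀ hpos'.ne' h2
  refine ⟨mkPlace o h0 hmul hadd hs, g.natAbs, hpos, fun a => ?_⟩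
  by_cases ha : a = 0
  · rw [ha, map_zero, v.ord_zero, Place.ord_zero, mul_zero]
  · rw [mkPlace_ord o h0 hmul hadd hs ha, ho]

end Restr

/-! ### The valuation ring -/

section Ring

variable {K L : Type} [Field K] [Field L] [Algebra K L] (w : Place K L)

theorem exists_unif : ∃ π : L, π ≠ 0 ∧ w.ord π = 1 ∧ w.val π < 1 := by
  obtain ⟨π, hπ⟩ := w.surj (WithZero.exp (-1 : ℤ))
  have h0 : π ≠ 0 := by
    rintro rfl
    rw [map_zero] at hπ
    exact WithZero.exp_ne_zero hπ.symm
  have h1 : w.ord π = 1 := by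
    unfold Place.ord
    rw [hπ, WithZero.log_exp]
    norm_num
  exact ⟨π, h0, h1, (w.ord_pos_iff h0).1 (by rw [h1]; norm_num)⟩

theorem ord_pow {a : L} (ha : a ≠ 0) (n : ℕ) : w.ord (a ^ n) = n * w.ord a := by
  induction n with
  | zero => simp [w.ord_one]
  | succ n ih =>
    rw [pow_succ, w.ord_mul (pow_ne_zero _ ha) ha, ih]
    push_cast
    ring

instance isFractionRing_ring : IsFractionRing w.ring L := by
  refine IsFractionRing.of_field w.ring L ?_
  intro z
  by_cases hz : w.val z ≤ 1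
  · exact ⟨⟨z, hz⟩, 1, by rw [map_one, div_one]; rfl⟩
  · have h1 : w.val z⁻¹ ≤ 1 := by
      rw [map_inv₀]
      rw [not_le] at hz
      exact (inv_lt_one_of_one_lt₀ hz).le
    refine ⟨1, ⟨z⁻¹, h1⟩, ?_⟩
    rw [map_one]
    change z = 1 / z⁻¹
    rw [one_div, inv_inv]

instance isDVR_ring : IsDiscreteValuationRing w.ring := by
  obtain ⟨π, hπ0, hπ, hπ1⟩ := exists_unif w
  apply IsDiscreteValuationRing.ofHasUnitMulPowIrreducibleFactorization
  refine ⟨⟨π, hπ1.le⟩, ?_, ?_⟩
  · rw [irreducible_iff]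
    refine ⟨fun h => ?_, fun a b hab => ?_⟩
    · rw [Place.isUnit_iff] at h
      exact hπ1.ne h
    · have hab' : π = (a : L) * (b : L) := congrArg Subtype.val hab
      have ha0 : (a : L) ≠ 0 := by
        intro h; rw [h, zero_mul] at hab'; exact hπ0 hab'
      have hb0 : (b : L) ≠ 0 := by
        intro h; rw [h, mul_zero] at hab'; exact hπ0 hab'
      have h1 : w.ord (a : L) + w.ord (b : L) = 1 := by
        rw [← w.ord_mul ha0 hb0, ← hab', hπ]
      have h2 := (w.ord_nonneg_iff ha0).2 a.2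
      have h3 := (w.ord_nonneg_iff hb0).2 b.2
      have h4 : w.ord (a : L) = 0 ∨ w.ord (b : L) = 0 := by omega
      rcases h4 with h4 | h4
      · left
        rw [Place.isUnit_iff]
        exact (w.ord_eq_zero_iff ha0).1 h4
      · right
        rw [Place.isUnit_iff]
        exact (w.ord_eq_zero_iff hb0).1 h4
  · intro x hx
    have hx0 : (x : L) ≠ 0 := fun h => hx (Subtype.ext h)
    have h1 := (w.ord_nonneg_iff hx0).2 x.2
    obtain ⟨n, hn⟩ := Int.eq_ofNat_of_zero_le h1
    refine ⟨n, ?_⟩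
    have h2 : w.ord ((x : L) / π ^ n) = 0 := by
      rw [div_eq_mul_inv, w.ord_mul hx0 (inv_ne_zero (pow_ne_zero _ hπ0)), w.ord_inv,
        ord_pow w hπ0, hπ, hn]
      ring
    have h3 : w.val ((x : L) / π ^ n) = 1 :=
      (w.ord_eq_zero_iff (div_ne_zero hx0 (pow_ne_zero _ hπ0))).1 h2
    have h4 : IsUnit (⟨(x : L) / π ^ n, h3.le⟩ : w.ring) := by
      rw [Place.isUnit_iff]
      exact h3
    obtain ⟨u, hu⟩ := h4
    refine ⟨u, ?_⟩
    apply Subtype.ext
    change (π : L) ^ n * ((u : w.ring) : L) = (x : L)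
    rw [hu]
    change π ^ n * ((x : L) / π ^ n) = x
    field_simp

end Ring

end Pool.Agent.Helper73.KL
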