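import Pool.Agent.Helper73.KL.Pt
import Pool.Agent.Helper73.KL.Restr

set_option autoImplicit false
set_option linter.unusedSectionVars false
set_option linter.style.haveILetI false

/-!
Project KL (MP_0b9e0b_ag), KL-12-3: the places of an algebraic extension of `N(t)` at which a point
with coordinates in `N` has the maximal dimension.
-/

namespace Pool.Agent.Helper73.KL

open Pool.Agent.Helper16 Pool.Agent.HC Pool.Agent.Helper1.KL Pool.Agent.Helper16.KLP

open scoped Classical in
/-- The coordinates which are regular at `g`, and an additional coordinate `1`. -/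
noncomputable def rc {k N L σ : Type} [Field k] [Field N] [Field L] [Algebra (RatFunc k) L]
    [Algebra N L] (g : Place (RatFunc k) L) (x : σ → Option N) : Option σ → N :=
  fun o => o.elim 1 fun j =>
    if g.val (algebraMap N L ((x j).getD 0)) ≤ 1 then (x j).getD 0 else 0

theorem specAt_rc {k N L σ : Type} [Field k] [Field N] [Field L] [Algebra (RatFunc k) L]
    [Algebra N L] (g : Place (RatFunc k) L) (x : σ → Option N) :
    SpecAt g (fun o => algebraMap N L (rc g x o)) (hc (spec g (mp (M := L) x))) := by
  refine ⟨fun h => ?_, 1, one_ne_zero, fun o => ?_⟩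
  · have h1 := congrFun h none
    exact one_ne_zero h1
  · rw [one_mul]
    cases o with
    | none =>
      change algebraMap N L 1 ∈ g.ring ∧ (1 : g.resField) = g.res (algebraMap N L 1)
      rw [map_one]
      exact ⟨one_mem _, g.res_one.symm⟩
    | some j =>
      change algebraMap N L (if g.val (algebraMap N L ((x j).getD 0)) ≤ 1 then (x j).getD 0 else 0)
          ∈ g.ring ∧ (spec g (mp (M := L) x) j).getD 0 = g.res (algebraMap N L
            (if g.val (algebraMap N L ((x j).getD 0)) ≤ 1 then (x j).getD 0 else 0))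
      unfold spec mp
      cases hx : x j with
      | none =>
        simp only [Option.getD_none, Option.map_none, Option.bind_none, map_zero, ite_self]
        exact ⟨zero_mem _, g.res_zero.symm⟩
      | some a =>
        simp only [Option.getD_some, Option.map_some, Option.bind_some]
        by_cases ha : g.val (algebraMap N L a) ≤ 1
        · have ha' : algebraMap N L a ∈ g.ring := ha
          rw [if_pos ha, if_pos ha']
          exact ⟨ha, rfl⟩
        · have ha' : algebraMap N L a ∉ g.ring := ha
          rw [if_neg ha, if_neg ha', map_zero]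
          exact ⟨zero_mem _, g.res_zero.symm⟩

theorem stPl (k : Type) [Field k] (σ : Type) : StPl k σ := by
  intro N L M _ _ _ _ _ _ _ _ _ _ _ _ _ _ _ _ _ _ _ r x v hT htop htr hnt hr
  obtain ⟨a0, ha0, hva0⟩ := hnt
  have hNL : ∀ a : N, algebraMap N M a = algebraMap L M (algebraMap N L a) := fun a =>
    IsScalarTower.algebraMap_apply N L M a
  have hLne : algebraMap N L a0 ≠ 0 := (map_ne_zero _).2 ha0
  have hMne : algebraMap N M a0 ≠ 0 := (map_ne_zero _).2 ha0
  obtain ⟨g, e, he, hv⟩ := exists_restrict (L := L) v ⟨algebraMap N L a0, by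
    rw [← hNL]
    exact fun h => hva0 ((v.ord_eq_zero_iff hMne).1 h)⟩
  have hAb : Above g v e := ⟨he, hv⟩
  have hle1 : ∀ a : L, v.val (algebraMap L M a) ≤ 1 ↔ g.val a ≤ 1 := above_val_le hAb
  obtain ⟨ψ, hψ⟩ := exists_emb g v hle1
  have hmp : mp (M := M) x = mp (M := M) (mp (M := L) x) := by
    funext i
    unfold mp
    rw [Option.map_map]
    congr 1
    funext a
    exact hNL a
  have h4 := spec_mp g v hle1 ψ hψ (mp (M := L) x)
  rw [← hmp] at h4
  rw [h4, trdeg_fld_map] at hr
  have hntg : ∃ a : N, a ≠ 0 ∧ g.val (algebraMap N L a) ≠ 1 := by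
    refine ⟨a0, ha0, fun h => hva0 ?_⟩
    rw [← g.ord_eq_zero_iff hLne] at h
    rw [← v.ord_eq_zero_iff hMne, hNL, hv, h, mul_zero]
  have h5 := transc_resM g (specAt_rc g x) htr (by rw [← fld_eq_ratioField]; exact hr) hntg
  obtain ⟨w, hw1, hw2⟩ := exists_restrict_gauss hT htop g h5.2.1
  refine ⟨w, g, e, ⟨hw1, hw2⟩, hAb, ?_⟩
  have hle2 : ∀ a : N, g.val (algebraMap N L a) ≤ 1 ↔ w.val a ≤ 1 := fun a => by rw [hw1]
  obtain ⟨φ, hφ⟩ := exists_emb w g hle2
  have h6 := spec_mp w g hle2 φ hφ x
  have h7 := h5.1
  rw [← fld_eq_ratioField, h6, trdeg_fld_map] at h7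
  exact h7

end Pool.Agent.Helper73.KL
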