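import Pool.Agent.Helper16.KL.P0
import Pool.Agent.Helper1.KL.General
import Pool.Agent.HC.Transport

set_option autoImplicit false
set_option linter.unusedSectionVars false
set_option linter.style.haveILetI false

/-!
Project KL (MP_0b9e0b_ag), KL-12-4: the point at a place above a Gauss place.
-/

namespace Pool.Agent.Helper73.KL

open Pool.Agent.Helper16 Pool.Agent.HC Pool.Agent.Helper1.KL Pool.Agent.Helper16.KLP

/-! ### Homogeneous coordinates -/

section Hc

variable {F σ N : Type} [Field F] [Field N] [Algebra F N]

/-- The coordinates, with `0` for `∞`, and an additional coordinate `1`. -/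
def hc (z : σ → Option N) : Option σ → N := fun o => o.elim 1 fun j => (z j).getD 0

theorem fld_eq_ratioField (z : σ → Option N) : fld F z = ratioField F (hc z) := by
  rw [ratioField_of_one (hc z) none rfl, fld_eq_range]
  refine le_antisymm ?_ ?_
  · rw [IntermediateField.adjoin_le_iff]
    rintro _ ⟨j, rfl⟩
    exact IntermediateField.subset_adjoin F _ ⟨some j, rfl⟩
  · rw [IntermediateField.adjoin_le_iff]
    rintro _ ⟨o, rfl⟩
    cases o with
    | none => exact one_mem _
    | some j => exact IntermediateField.subset_adjoin F _ ⟨j, rfl⟩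

end Hc

/-! ### Residue fields -/

section Res

variable {k K N M : Type} [Field k] [Field K] [Field N] [Field M] [Algebra k K] [Algebra k N]
  [Algebra k M] [Algebra K M] [Algebra N M] [IsScalarTower k K M] [IsScalarTower k N M]

theorem exists_emb (w : Place k N) (v : Place K M)
    (h : ∀ a : N, v.val (algebraMap N M a) ≤ 1 ↔ w.val a ≤ 1) :
    ∃ j : w.resField →ₐ[k] v.resField, ∀ a : N, w.val a ≤ 1 →
      j (w.res a) = v.res (algebraMap N M a) := by
  have hring : ∀ a : w.ring, algebraMap N M (a : N) ∈ v.ring := fun a => (h _).2 a.2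
  let f : w.ring →+* v.resField :=
    { toFun := fun a => v.res (algebraMap N M (a : N))
      map_one' := by
        change v.res (algebraMap N M 1) = 1
        rw [map_one, v.res_one]
      map_mul' := fun a b => by
        change v.res (algebraMap N M (a * b)) = _
        rw [map_mul, v.res_mul (hring a) (hring b)]
      map_zero' := by
        change v.res (algebraMap N M 0) = 0
        rw [map_zero, v.res_zero]
      map_add' := fun a b => by
        change v.res (algebraMap N M (a + b)) = _
        rw [map_add, v.res_add (hring a) (hring b)] }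
  haveI : IsLocalHom f := by
    refine ⟨fun a ha => ?_⟩
    have ha' : v.res (algebraMap N M (a : N)) ≠ 0 := ha.ne_zero
    rw [res_ne_zero_iff v (hring a)] at ha'
    have ha0 : (a : N) ≠ 0 := by
      intro h0
      rw [h0, map_zero, map_zero] at ha'
      exact zero_ne_one ha'
    rw [Place.isUnit_iff]
    refine le_antisymm a.2 ?_
    have h2 : w.val (a : N)⁻¹ ≤ 1 := by
      rw [← h, map_inv₀, map_inv₀, ha', inv_one]
    rw [map_inv₀] at h2
    have h3 : w.val (a : N) ≠ 0 := (Valuation.ne_zero_iff _).2 ha0
    exact (inv_le_one₀ (zero_lt_iff.2 h3)).1 h2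
  let g : w.resField →+* v.resField := IsLocalRing.ResidueField.lift f
  have hg : ∀ a : w.ring, g (IsLocalRing.residue w.ring a) = f a := fun a =>
    IsLocalRing.ResidueField.lift_residue_apply f a
  refine ⟨{ g with commutes' := fun c => ?_ }, fun a ha => ?_⟩
  · change g (algebraMap k w.resField c) = _
    rw [← w.res_algebraMap c, w.res_of_mem (w.ring.algebraMap_mem c), hg]
    change v.res (algebraMap N M (algebraMap k N c)) = _
    rw [← IsScalarTower.algebraMap_apply k N M]
    exact (res_algebraMap' v c).2
  · change g (w.res a) = _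
    rw [w.res_of_mem ha, hg]
    rfl

theorem spec_mp {σ : Type} (w : Place k N) (v : Place K M)
    (h : ∀ a : N, v.val (algebraMap N M a) ≤ 1 ↔ w.val a ≤ 1) (j : w.resField →ₐ[k] v.resField)
    (hj : ∀ a : N, w.val a ≤ 1 → j (w.res a) = v.res (algebraMap N M a)) (x : σ → Option N) :
    spec v (mp (M := M) x) = fun i => (spec w x i).map j := by
  funext i
  unfold spec mp
  cases x i with
  | none => rfl
  | some a =>
    simp only [Option.map_some, Option.bind_some]
    by_cases ha : w.val a ≤ 1
    · have h1 : a ∈ w.ring := ha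
      have h2 : algebraMap N M a ∈ v.ring := (h a).2 ha
      rw [if_pos h1, if_pos h2, Option.map_some, hj a ha]
    · have h1 : a ∉ w.ring := ha
      have h2 : algebraMap N M a ∉ v.ring := fun h3 => ha ((h a).1 h3)
      rw [if_neg h1, if_neg h2, Option.map_none]

theorem adjoin_res_eq_range (w : Place k N) (v : Place K M)
    (h : ∀ a : N, v.val (algebraMap N M a) ≤ 1 ↔ w.val a ≤ 1) (j : w.resField →ₐ[k] v.resField)
    (hj : ∀ a : N, w.val a ≤ 1 → j (w.res a) = v.res (algebraMap N M a)) :
    IntermediateField.adjoin k (Set.range fun a : {a : N // v.val (algebraMap N M a) ≤ 1} =>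
      v.res (algebraMap N M (a : N))) = j.fieldRange := by
  refine le_antisymm ?_ ?_
  · rw [IntermediateField.adjoin_le_iff]
    rintro _ ⟨⟨a, ha⟩, rfl⟩
    rw [h] at ha
    exact ⟨w.res a, hj a ha⟩
  · rintro _ ⟨b, rfl⟩
    obtain ⟨a, ha, rfl⟩ := w.res_surj b
    change j (w.res a) ∈ _
    rw [hj a ha]
    exact IntermediateField.subset_adjoin _ _ ⟨⟨a, (h a).2 ha⟩, rfl⟩

end Res

theorem above_val_le {K L M : Type} [Field K] [Field L] [Field M] [Algebra K L] [Algebra K M]
    [Algebra L M] {w : Place K L} {v : Place K M} {e : ℕ} (h : Above w v e) (a : L) :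
    v.val (algebraMap L M a) ≤ 1 ↔ w.val a ≤ 1 := by
  by_cases ha : a = 0
  · rw [ha, map_zero, map_zero, map_zero]
  · have ha' : algebraMap L M a ≠ 0 := (map_ne_zero _).2 ha
    rw [← v.ord_nonneg_iff ha', ← w.ord_nonneg_iff ha, h.2]
    have he : (0 : ℤ) < e := by exact_mod_cast h.1
    exact mul_nonneg_iff_of_pos_left he

/-- The degree over the field of an image of a point. -/
theorem finrank_fld_map {K σ A W : Type} [Field K] [Field A] [Field W] [Algebra K A]
    [Algebra K W] (ψ : A →ₐ[K] W) (z : σ → Option A) :
    Module.finrank (fld K (fun i => (z i).map ψ)) W =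
      Module.finrank ψ.fieldRange W * Module.finrank (fld K z) A := by
  have hle : fld K (fun i => (z i).map ψ) ≤ ψ.fieldRange := by
    rw [fld_map]
    rintro _ ⟨a, -, rfl⟩
    exact ⟨a, rfl⟩
  have h1 := finrank_map_emb ψ (fld K z) (fld K (fun i => (z i).map ψ)) ψ.fieldRange
    (fld_map ψ z) rfl hle
  haveI : Module.Free (fld K (fun i => (z i).map ψ)) (IntermediateField.extendScalars hle) :=
    Module.Free.of_divisionRing _ _
  haveI : Module.Free (IntermediateField.extendScalars hle) W := Module.Free.of_divisionRing _ _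
  have h2 := Module.finrank_mul_finrank (fld K (fun i => (z i).map ψ))
    (IntermediateField.extendScalars hle) W
  rw [← h2, h1, mul_comm]
  rfl

/-- Transcendence over a smaller field. -/
theorem transc_of_le {k R : Type} [Field k] [Field R] [Algebra k R] {E F : IntermediateField k R}
    (hle : E ≤ F) {t : R} (ht : Transcendental F t) : Transcendental E t := by
  letI : Algebra E F := (IntermediateField.inclusion hle).toAlgebra
  haveI : IsScalarTower E F R := IsScalarTower.of_algebraMap_eq fun _ => rfl
  exact Transcendental.restrictScalars (algebraMap E F).injective ht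

/-- Algebraicity from the transcendence degrees. -/
theorem alg_of_trdeg {k R : Type} [Field k] [Field R] [Algebra k R] {E F : IntermediateField k R}
    (hle : E ≤ F) {r : ℕ} (hE : Algebra.trdeg k E = r) (hF : Algebra.trdeg k F ≤ r) :
    ∀ a ∈ F, IsAlgebraic E a := by
  letI : Algebra E F := (IntermediateField.inclusion hle).toAlgebra
  haveI : IsScalarTower k E F := IsScalarTower.of_algebraMap_eq fun _ => rfl
  haveI : IsScalarTower E F R := IsScalarTower.of_algebraMap_eq fun _ => rfl
  haveI : FaithfulSMul k E := (faithfulSMul_iff_algebraMap_injective k E).2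
    (algebraMap k E).injective
  haveI : FaithfulSMul E F := (faithfulSMul_iff_algebraMap_injective E F).2
    (algebraMap E F).injective
  have h4 : Algebra.IsAlgebraic E F := by
    rw [← trdeg_eq_zero_iff]
    have h5 := trdeg_add_eq k E (A := F)
    rw [← h5, hE] at hF
    have h7 : Algebra.trdeg E F + r ≤ 0 + r := by
      rwa [zero_add, add_comm]
    have h8 := (Cardinal.add_le_add_iff_of_lt_aleph0 (Cardinal.natCast_lt_aleph0 (n := r))).1 h7
    exact le_antisymm h8 zero_le
  intro a ha
  have h5 := h4.isAlgebraic ⟨a, ha⟩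
  exact h5.algebraMap (A := R)

/-- The point at a Gauss place. -/
theorem gauss_pt {k σ N L : Type} [Field k] [Field N] [Field L] [Algebra k N] [Algebra k L]
    [Algebra N L] [Algebra (RatFunc k) L] [IsScalarTower k (RatFunc k) L] [IsScalarTower k N L]
    (hT : Transcendental N (tv k L)) (htop : IntermediateField.adjoin N {tv k L} = ⊤)
    {w : Place k N} {g : Place (RatFunc k) L} (hg : Gs w g) {r : ℕ}
    (htr : Algebra.trdeg k N = r + 1) {x : σ → Option N}
    (hr : Algebra.trdeg k (fld k (spec w x)) = r) :
    ∃ φ : w.resField →ₐ[k] g.resField, spec g (mp (M := L) x) = (fun i => (spec w x i).map φ) ∧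
      Algebra.trdeg (RatFunc k) (fld (RatFunc k) (spec g (mp (M := L) x))) = r ∧
      Module.finrank (fld (RatFunc k) (spec g (mp (M := L) x))) g.resField =
        Module.finrank (fld k (spec w x)) w.resField := by
  have hle1 : ∀ a : N, g.val (algebraMap N L a) ≤ 1 ↔ w.val a ≤ 1 := fun a => by rw [hg.1]
  obtain ⟨φ, hφ⟩ := exists_emb w g hle1
  have hsp := spec_mp w g hle1 φ hφ x
  set y : σ → Option w.resField := spec w x with hy
  -- the homogeneous coordinates
  have hhc : hc (fun i => (y i).map φ) = fun o => φ (hc y o) := by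
    funext o
    cases o with
    | none => exact (map_one φ).symm
    | some i => exact getD_map φ (y i)
  have ht : Transcendental (resM k N g) (tv k g.resField) := transc_of_gauss hg.1 hg.2
  have hres : resM k N g = φ.fieldRange := resM_eq_range hg.1 hφ
  have hle : ratioField k (hc fun i => (y i).map φ) ≤ resM k N g := by
    rw [← fld_eq_ratioField, fld_map, hres]
    rintro _ ⟨a, -, rfl⟩
    exact ⟨a, rfl⟩
  have ht' : Transcendental (ratioField k (hc fun i => (y i).map φ)) (tv k g.resField) :=
    transc_of_le hle ht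
  have hdim : Algebra.trdeg (RatFunc k) (fld (RatFunc k) fun i => (y i).map φ) = r := by
    rw [fld_eq_ratioField, trdeg_const _ ht', ← fld_eq_ratioField, trdeg_fld_map, hr]
  -- algebraicity of the residue field
  have halg : ∀ a ∈ resM k N g, IsAlgebraic (ratioField k (hc fun i => (y i).map φ)) a := by
    refine alg_of_trdeg hle (r := r) ?_ ?_
    · rw [← fld_eq_ratioField, trdeg_fld_map, hr]
    · rw [hres]
      have h7 := (AlgEquiv.ofInjectiveField φ).trdeg_eq
      exact (le_of_eq h7.symm).trans (trdeg_resField_le w htr)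
  refine ⟨φ, hsp, by rw [hsp]; exact hdim, ?_⟩
  rw [hsp]
  have h1 : Module.finrank (fld (RatFunc k) fun i => (y i).map φ) g.resField =
      Module.finrank (ratT k (hc fun i => (y i).map φ)) g.resField := by
    refine finrank_congr _ _ fun a => ?_
    have h2 := ratT_restrict (k := k) (hc fun i => (y i).map φ)
    have h3 : a ∈ (ratT k (hc fun i => (y i).map φ)).restrictScalars k ↔
        a ∈ (ratioField (RatFunc k) (hc fun i => (y i).map φ)).restrictScalars k := by rw [h2]
    rw [fld_eq_ratioField]
    exact h3.symm
  rw [h1, finrank_tau _ _ hle halg _ ht (adjoin_resM hT htop hg.1 hg.2)]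
  refine finrank_map_emb φ (fld k y) _ _ ?_ hres hle
  rw [← fld_eq_ratioField, fld_map]

theorem stPt (k : Type) [Field k] (σ : Type) : StPt k σ := by
  intro N L M _ _ _ _ _ _ _ _ _ _ _ _ _ _ _ _ _ _ _ r x w g v e hT htop htr hg hv hr
  obtain ⟨φ, h1, h2, h3⟩ := gauss_pt hT htop hg htr hr
  have hle1 : ∀ a : L, v.val (algebraMap L M a) ≤ 1 ↔ g.val a ≤ 1 := above_val_le hv
  obtain ⟨ψ, hψ⟩ := exists_emb g v hle1
  have hmp : mp (M := M) x = mp (M := M) (mp (M := L) x) := by
    funext i
    unfold mp
    rw [Option.map_map]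
    congr 1
    funext a
    exact IsScalarTower.algebraMap_apply N L M a
  have h4 := spec_mp g v hle1 ψ hψ (mp (M := L) x)
  rw [← hmp] at h4
  have hres : resL (RatFunc k) L v = ψ.fieldRange := adjoin_res_eq_range g v hle1 ψ hψ
  refine ⟨⟨(ψ.restrictScalars k).comp φ, ?_⟩, ?_, ?_⟩
  · rw [h4, h1]
    funext i
    rw [Option.map_map]
    rfl
  · rw [h4, trdeg_fld_map, h2]
  · rw [h4, finrank_fld_map, hres, h3]

end Pool.Agent.Helper73.KL
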